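import Pool.Agent.Lib_helper84.GarsideLattice

/-!
# Chains in a lattice with a shift whose quotient is hyperbolic
-/

set_option autoImplicit false

namespace Pool.Agent.GHyp

open Pool.Agent.Lib_helper84.Garside

variable {P : Type*} [Lattice P]

/-- The distance between `x` and `y` modulo the shift: the least `m` such that
`T^i x ≤ T^j y ≤ T^(i+m) x` for some `i` and `j`. -/
noncomputable def gd (T : P → P) (x y : P) : ℕ :=
  sInf {m : ℕ | ∃ i j : ℕ, T^[i] x ≤ T^[j] y ∧ T^[j] y ≤ T^[i + m] x}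

section

variable {T : P → P} {r : ℕ} (hT : Shift T r)
include hT

theorem gd_mem (x y : P) : ∃ i j : ℕ, T^[i] x ≤ T^[j] y ∧ T^[j] y ≤ T^[i + gd T x y] x := by
  have hne : {m : ℕ | ∃ i j : ℕ, T^[i] x ≤ T^[j] y ∧ T^[j] y ≤ T^[i + m] x}.Nonempty := by
    obtain ⟨j, hj⟩ := hT.cofinal y x
    obtain ⟨t, ht⟩ := hT.cofinal x y
    refine ⟨j + t, 0, j, hj, ?_⟩
    rw [Nat.zero_add, Function.iterate_add_apply]
    exact (hT.iter_le_iff _ _ _).2 ht
  exact Nat.sInf_mem hne

omit hT in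
theorem gd_le {x y : P} {m : ℕ} (i j : ℕ) (h1 : T^[i] x ≤ T^[j] y)
    (h2 : T^[j] y ≤ T^[i + m] x) : gd T x y ≤ m := Nat.sInf_le ⟨i, j, h1, h2⟩

theorem gd_symm_le (x y : P) : gd T y x ≤ gd T x y := by
  obtain ⟨i, j, h1, h2⟩ := gd_mem hT x y
  refine gd_le j (i + gd T x y) h2 ?_
  rw [Nat.add_comm i, Nat.add_comm j, Function.iterate_add_apply, Function.iterate_add_apply]
  exact (hT.iter_le_iff _ _ _).2 h1

theorem gd_comm (x y : P) : gd T x y = gd T y x :=
  le_antisymm (gd_symm_le hT y x) (gd_symm_le hT x y)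

theorem gd_triangle (x y z : P) : gd T x z ≤ gd T x y + gd T y z := by
  obtain ⟨i, j, h1, h2⟩ := gd_mem hT x y
  obtain ⟨a, b, h3, h4⟩ := gd_mem hT y z
  refine gd_le (a + i) (j + b) ?_ ?_
  · calc T^[a + i] x = T^[a] (T^[i] x) := Function.iterate_add_apply _ _ _ _
      _ ≤ T^[a] (T^[j] y) := (hT.iter_le_iff _ _ _).2 h1
      _ = T^[j] (T^[a] y) := by
          rw [← Function.iterate_add_apply, ← Function.iterate_add_apply, Nat.add_comm]
      _ ≤ T^[j] (T^[b] z) := (hT.iter_le_iff _ _ _).2 h3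
      _ = T^[j + b] z := (Function.iterate_add_apply _ _ _ _).symm
  · calc T^[j + b] z = T^[j] (T^[b] z) := Function.iterate_add_apply _ _ _ _
      _ ≤ T^[j] (T^[a + gd T y z] y) := (hT.iter_le_iff _ _ _).2 h4
      _ = T^[a + gd T y z] (T^[j] y) := by
          rw [← Function.iterate_add_apply, ← Function.iterate_add_apply, Nat.add_comm]
      _ ≤ T^[a + gd T y z] (T^[i + gd T x y] x) := (hT.iter_le_iff _ _ _).2 h2
      _ = T^[a + i + (gd T x y + gd T y z)] x := by
          rw [← Function.iterate_add_apply]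
          congr 1
          omega

theorem gd_le_of_le {x y : P} {t : ℕ} (h1 : x ≤ y) (h2 : y ≤ T^[t] x) : gd T x y ≤ t :=
  gd_le 0 0 h1 (by simpa using h2)

theorem gd_self (x : P) : gd T x x = 0 :=
  Nat.le_zero.1 (gd_le_of_le hT le_rfl (by simp))

/-- For a pair without a factor `T` the distance is the time. -/
theorem le_iter_gd {x y : P} (h1 : x ≤ y) (h : ¬ T x ≤ y) : y ≤ T^[gd T x y] x := by
  obtain ⟨i, j, h2, h3⟩ := gd_mem hT x y
  have hij : i ≤ j := by
    by_contra hcon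
    push_neg at hcon
    apply h
    obtain ⟨e, rfl⟩ : ∃ e, i = j + (e + 1) := ⟨i - j - 1, by omega⟩
    rw [Function.iterate_add_apply, hT.iter_le_iff, Function.iterate_succ_apply'] at h2
    refine le_trans ((hT.le_iff _ _).2 ?_) h2
    exact hT.iter_mono (Nat.zero_le e) x
  have h4 : T^[i + gd T x y] x ≤ T^[j] (T^[gd T x y] x) := by
    rw [← Function.iterate_add_apply]
    exact hT.iter_mono (by omega) x
  exact (hT.iter_le_iff j _ _).1 (h3.trans h4)

/-- Monotonicity on windows without a factor `T`. -/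
theorem gd_mono {x y y' z : P} (h1 : x ≤ y) (h2 : y ≤ y') (h3 : y' ≤ z) (h : ¬ T x ≤ z) :
    gd T y y' ≤ gd T x z := by
  refine gd_le_of_le hT h2 ?_
  refine h3.trans ((le_iter_gd hT (h1.trans (h2.trans h3)) h).trans ?_)
  exact (hT.iter_le_iff _ _ _).2 h1

end

/-- The four point condition. -/
def Four (T : P → P) (K : ℕ) : Prop :=
  ∀ x y z w : P, gd T x z + gd T y w ≤
    max (gd T x y + gd T z w) (gd T y z + gd T x w) + K

section

variable {T : P → P} {r : ℕ} (hT : Shift T r) {K : ℕ} (hK : Four T K)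
include hT hK

/-- The logarithmic lemma. -/
theorem log_lemma (p : ℕ → P) (w : P) (R : ℕ) (h : ℕ) :
    ∀ a b : ℕ, a ≤ b → b - a ≤ 2 ^ h → (∀ i, a ≤ i → i < b → gd T (p i) (p (i + 1)) ≤ 1) →
      (∀ i, a ≤ i → i ≤ b → R ≤ gd T (p i) w) →
      2 * (R : ℤ) - 1 - h * K ≤ gd T (p a) w + gd T (p b) w - gd T (p a) (p b) := by
  induction h with
  | zero =>
    intro a b hab hb hs hR
    simp only [pow_zero] at hb
    have h1 := hR a le_rfl hab
    have h2 := hR b hab le_rfl
    rcases Nat.eq_or_lt_of_le hab with e | e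
    · subst e
      rw [gd_self hT]
      push_cast
      omega
    · have e' : b = a + 1 := by omega
      subst e'
      have h3 := hs a le_rfl (by omega)
      push_cast
      omega
  | succ h ih =>
    intro a b hab hb hs hR
    rw [pow_succ] at hb
    obtain ⟨c, hac, hcb, h1, h2⟩ : ∃ c, a ≤ c ∧ c ≤ b ∧ c - a ≤ 2 ^ h ∧ b - c ≤ 2 ^ h :=
      ⟨(a + b) / 2, by omega, by omega, by omega, by omega⟩
    have i1 := ih a c hac h1 (fun i hi hi' => hs i hi (by omega))
      (fun i hi hi' => hR i hi (by omega))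
    have i2 := ih c b hcb h2 (fun i hi hi' => hs i (by omega) hi')
      (fun i hi hi' => hR i (by omega) hi')
    have h4 := hK (p a) (p c) (p b) w
    have e1 : (((h + 1 : ℕ) : ℤ)) * K = h * K + K := by push_cast; ring
    rw [e1]
    rcases le_total (gd T (p a) (p c) + gd T (p b) w) (gd T (p c) (p b) + gd T (p a) w)
      with h5 | h5
    · rw [max_eq_right h5] at h4
      omega
    · rw [max_eq_left h5] at h4
      omega

omit hK in
theorem iter_inf (m : ℕ) (x y : P) : T^[m] (x ⊓ y) = T^[m] x ⊓ T^[m] y := by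
  induction m with
  | zero => rfl
  | succ m ih =>
    rw [Function.iterate_succ_apply', Function.iterate_succ_apply', Function.iterate_succ_apply',
      ih, hT.map_inf]

omit hK in
theorem not_T_le_mono {x y z w : P} (h1 : x ≤ y) (h2 : z ≤ w) (h : ¬ T x ≤ w) : ¬ T y ≤ z :=
  fun h' => h (((hT.le_iff _ _).2 h1).trans (h'.trans h2))

/-- A chain without a factor `T` is thin. -/
theorem thin (f : ℕ → P) (i j k h : ℕ) (hij : i ≤ j) (hjk : j ≤ k) (hlen : k - i ≤ 2 ^ h)
    (hmono : ∀ a b, i ≤ a → a ≤ b → b ≤ k → f a ≤ f b)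
    (hstep : ∀ a, i ≤ a → a < k → f (a + 1) ≤ T (f a)) (hfree : ¬ T (f i) ≤ f k) :
    (gd T (f i) (f j) : ℤ) + gd T (f k) (f j) - gd T (f i) (f k) ≤ 6 * (h * K) + 2 := by
  have hik : f i ≤ f k := hmono i k le_rfl (hij.trans hjk) le_rfl
  set s := gd T (f i) (f k) with hs
  have hks : f k ≤ T^[s] (f i) := le_iter_gd hT hik hfree
  set y : ℕ → P := fun m => f k ⊓ T^[m] (f i) with hy
  have hy0 : y 0 = f i := by
    change f k ⊓ f i = f i
    exact inf_eq_right.2 hik
  have hys : y s = f k := by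
    change f k ⊓ T^[s] (f i) = f k
    exact inf_eq_left.2 hks
  have hiy : ∀ m, f i ≤ y m := fun m => le_inf hik (hT.iter_mono (Nat.zero_le m) _)
  have d1 : ∀ m, gd T (f i) (y m) ≤ m := fun m => gd_le_of_le hT (hiy m) inf_le_right
  have d2 : ∀ m, m ≤ s → gd T (y m) (f k) ≤ s - m := fun m hm => by
    refine gd_le_of_le hT inf_le_left ?_
    change f k ≤ T^[s - m] (f k ⊓ T^[m] (f i))
    rw [iter_inf hT, ← Function.iterate_add_apply, Nat.sub_add_cancel hm]
    exact le_inf (hT.iter_mono (Nat.zero_le _) _) hks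
  have d3 : ∀ m, gd T (y m) (y (m + 1)) ≤ 1 := fun m => by
    refine gd_le_of_le hT (le_inf inf_le_left
      (inf_le_right.trans (hT.iter_mono (Nat.le_succ m) _))) ?_
    change f k ⊓ T^[m + 1] (f i) ≤ T (f k ⊓ T^[m] (f i))
    rw [hT.map_inf, Function.iterate_succ_apply']
    exact inf_le_inf_right _ (hT.le_self _)
  have hstep' : ∀ a, i ≤ a → a < k → gd T (f a) (f (a + 1)) ≤ 1 := fun a ha hak =>
    gd_le_of_le hT (hmono a (a + 1) ha (by omega) hak) (hstep a ha hak)
  have near : ∀ m, m ≤ s → ∃ p, i ≤ p ∧ p ≤ k ∧ gd T (f p) (y m) ≤ h * K := by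
    intro m hm
    by_contra hcon
    push_neg at hcon
    have h1 := log_lemma hT hK f (y m) (h * K + 1) h i k (hij.trans hjk) hlen hstep'
      (fun a ha hak => hcon a ha hak)
    have h2 := d1 m
    have h3 := d2 m hm
    rw [gd_comm hT] at h3
    rw [← hs] at h1
    have h6 : (0 : ℤ) ≤ h * K := by positivity
    push_cast at h1
    omega
  have hfree' : ∀ p q, i ≤ p → q ≤ k → p ≤ k → i ≤ q → ¬ T (f p) ≤ f q := fun p q h1 h2 h3 h4 =>
    not_T_le_mono hT (hmono i p le_rfl h1 h3) (hmono q k h4 h2 le_rfl) hfree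
  have hmon1 : gd T (f i) (f j) ≤ s :=
    gd_mono hT le_rfl (hmono i j le_rfl hij hjk) (hmono j k hij hjk le_rfl) hfree
  by_cases hQs : ∃ p, i ≤ p ∧ p ≤ j ∧ gd T (f p) (y s) ≤ h * K
  · obtain ⟨p, h1, h2, h3⟩ := hQs
    rw [hys] at h3
    have h4 : gd T (f p) (f j) ≤ gd T (f p) (f k) :=
      gd_mono hT le_rfl (hmono p j h1 h2 hjk) (hmono j k hij hjk le_rfl)
        (hfree' p k h1 le_rfl (h2.trans hjk) (hij.trans hjk))
    have h5 := gd_triangle hT (f k) (f p) (f j)
    rw [gd_comm hT (f k) (f p)] at h5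
    have h6 : (0 : ℤ) ≤ h * K := by positivity
    push_cast
    omega
  · have hex : ∃ m, m < s ∧ (∃ p, i ≤ p ∧ p ≤ j ∧ gd T (f p) (y m) ≤ h * K) ∧
        ¬ ∃ p, i ≤ p ∧ p ≤ j ∧ gd T (f p) (y (m + 1)) ≤ h * K := by
      by_contra hcon
      push_neg at hcon
      apply hQs
      have : ∀ m, m ≤ s → ∃ p, i ≤ p ∧ p ≤ j ∧ gd T (f p) (y m) ≤ h * K := by
        intro m
        induction m with
        | zero => intro _; exact ⟨i, le_rfl, hij, by rw [hy0, gd_self hT]; exact Nat.zero_le _⟩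
        | succ m ih =>
          intro hm
          by_contra hno
          push_neg at hno
          obtain ⟨p, h1, h2, h3⟩ := hcon m hm (ih (by omega))
          exact absurd h3 (not_le_of_gt (hno p h1 h2))
      exact this s le_rfl
    obtain ⟨m, hm, ⟨p, hp1, hp2, hp3⟩, hno⟩ := hex
    obtain ⟨p', hp1', hp2', hp3'⟩ := near (m + 1) hm
    have hjp' : j < p' := by
      by_contra hcon
      exact hno ⟨p', hp1', by omega, hp3'⟩
    have e1 := gd_triangle hT (f p) (y m) (f p')
    have e2 := gd_triangle hT (y m) (y (m + 1)) (f p')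
    have e3 := d3 m
    rw [gd_comm hT (f p') (y (m + 1))] at hp3'
    have e4 : gd T (f p) (f j) ≤ gd T (f p) (f p') :=
      gd_mono hT le_rfl (hmono p j hp1 hp2 hjk) (hmono j p' hij hjp'.le hp2')
        (hfree' p p' hp1 hp2' (hp2.trans hjk) hp1')
    have e5 := gd_triangle hT (f j) (f p) (y m)
    rw [gd_comm hT (f j) (f p)] at e5
    have e6 := gd_triangle hT (f i) (y m) (f j)
    have e7 := gd_triangle hT (f k) (y m) (f j)
    rw [gd_comm hT (y m) (f j)] at e6 e7
    have e8 := d1 m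
    have e9 := d2 m hm.le
    rw [gd_comm hT (y m) (f k)] at e9
    push_cast
    omega

/-- Local to global. -/
theorem local_step (z₀ q p p' : P) (A σ : ℕ)
    (h1 : (gd T z₀ q : ℤ) + A - gd T z₀ p ≤ σ + K) (hA : gd T q p = A) (hA' : gd T p p' = A)
    (hthin : (gd T q p : ℤ) + gd T p' p - gd T q p' ≤ σ) (hbig : σ + K < A) :
    (gd T z₀ p : ℤ) + A - gd T z₀ p' ≤ σ + K ∧ gd T z₀ p + 1 ≤ gd T z₀ p' := by
  have h := hK q z₀ p' p
  rw [gd_comm hT q z₀, gd_comm hT p' p] at h
  rw [gd_comm hT p' p] at hthin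
  rcases le_total (gd T z₀ q + gd T p p') (gd T z₀ p' + gd T q p) with h5 | h5
  · rw [max_eq_right h5] at h
    constructor <;> omega
  · rw [max_eq_left h5] at h
    constructor <;> omega

end

end Pool.Agent.GHyp
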