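import Pool.Agent.Lib_helper58.GHyp.HypLattice

/-!
# The linear bound
-/

set_option autoImplicit false

namespace Pool.Agent.GHyp

open Pool.Agent.Lib_helper84.Garside

variable {P : Type*} [Lattice P]

/-- A strict chain of `n` steps inside intervals `[x, T x]`. -/
inductive SC (T : P → P) : ℕ → P → P → Prop
  | refl (x : P) : SC T 0 x x
  | step {n : ℕ} {x y z : P} : x < y → y ≤ T x → SC T n y z → SC T (n + 1) x z

namespace SC

variable {T : P → P}

theorem trans {m n : ℕ} {x y z : P} (h : SC T m x y) (h' : SC T n y z) : SC T (m + n) x z := by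
  induction h with
  | refl x => simpa using h'
  | step h1 h2 _ ih =>
    have := SC.step h1 h2 (ih h')
    convert this using 1
    omega

theorem le {n : ℕ} {x y : P} (h : SC T n x y) : x ≤ y := by
  induction h with
  | refl x => exact le_rfl
  | step h1 _ _ ih => exact h1.le.trans ih

theorem exists_fun {n : ℕ} {x y : P} (h : SC T n x y) : ∃ f : ℕ → P, f 0 = x ∧ f n = y ∧
    (∀ i < n, f i < f (i + 1)) ∧ ∀ i < n, f (i + 1) ≤ T (f i) := by
  induction h with
  | refl x => exact ⟨fun _ => x, rfl, rfl, fun i hi => absurd hi (by omega),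
      fun i hi => absurd hi (by omega)⟩
  | @step n x y z h1 h2 _ ih =>
    obtain ⟨f, f0, fn, f1, f2⟩ := ih
    refine ⟨fun i => Nat.casesOn i x f, rfl, fn, ?_, ?_⟩
    · intro i hi
      cases i with
      | zero => change x < f 0; rw [f0]; exact h1
      | succ i => exact f1 i (by omega)
    · intro i hi
      cases i with
      | zero => change f 0 ≤ T x; rw [f0]; exact h2
      | succ i => exact f2 i (by omega)

theorem of_fun (f : ℕ → P) (n : ℕ) (f1 : ∀ i < n, f i < f (i + 1))
    (f2 : ∀ i < n, f (i + 1) ≤ T (f i)) (i j : ℕ) (hij : i ≤ j) (hj : j ≤ n) :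
    SC T (j - i) (f i) (f j) := by
  induction j, hij using Nat.le_induction with
  | base => rw [Nat.sub_self]; exact SC.refl _
  | succ j hij ih =>
    have := (ih (by omega)).trans (SC.step (f1 j (by omega)) (f2 j (by omega)) (SC.refl _))
    convert this using 1
    omega

theorem of_le {r : ℕ} (hT : Shift T r) {x y : P} (h : x ≤ y) : ∃ n, SC T n x y := by
  obtain ⟨t, ht⟩ := hT.cofinal x y
  induction t generalizing y with
  | zero =>
    have : y = x := le_antisymm ht h
    subst this
    exact ⟨0, SC.refl _⟩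
  | succ t ih =>
    obtain ⟨n, hn⟩ := ih (y := y ⊓ T^[t] x) (le_inf h (hT.iter_mono (Nat.zero_le t) x))
      inf_le_right
    rcases (inf_le_left : y ⊓ T^[t] x ≤ y).eq_or_lt with e | e
    · rw [e] at hn
      exact ⟨n, hn⟩
    · refine ⟨n + 1, hn.trans (SC.step e ?_ (SC.refl _))⟩
      rw [hT.map_inf, ← Function.iterate_succ_apply' (f := T)]
      exact le_inf (hT.le_self _) ht

theorem unshift {r : ℕ} (hT : Shift T r) (himg : ∀ x y, T x ≤ y → ∃ z, y = T z) {n : ℕ}
    {a b : P} (h : SC T n a b) : ∀ x, a = T x → ∃ y, b = T y ∧ SC T n x y := by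
  induction h with
  | refl a => intro x hx; exact ⟨x, hx, SC.refl _⟩
  | @step n a c b h1 h2 _ ih =>
    intro x hx
    subst hx
    obtain ⟨c', rfl⟩ := himg x c h1.le
    obtain ⟨y, hy, h3⟩ := ih c' rfl
    refine ⟨y, hy, SC.step ?_ ((hT.le_iff _ _).1 h2) h3⟩
    rw [lt_iff_le_not_ge] at h1 ⊢
    rw [hT.le_iff, hT.le_iff] at h1
    exact h1

end SC

variable {T : P → P} {r : ℕ} (hT : Shift T r) {K : ℕ} (hK : Four T K)
include hT hK

theorem claim_iter {A b h : ℕ} (hA : 6 * (h * K) + 2 + K < A) (hb : 2 * b ≤ 2 ^ h)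
    (hB : ∀ (m : ℕ) (x : ℕ → P), (∀ i < m, x i < x (i + 1)) → x m ≤ T^[A] (x 0) → m < b)
    (f : ℕ → P) (n : ℕ) (f1 : ∀ i < n, f i < f (i + 1)) (f2 : ∀ i < n, f (i + 1) ≤ T (f i))
    (hfree : ∀ i j, i ≤ j → j ≤ n → j - i ≤ 2 * b → ¬ T (f i) ≤ f j) (l : ℕ) :
    (l + 1) * b ≤ n → ∃ q p, q ≤ p ∧ p ≤ (l + 1) * b ∧ p - q ≤ b ∧ gd T (f q) (f p) = A ∧
      (gd T (f 0) (f q) : ℤ) + A - gd T (f 0) (f p) ≤ 6 * (h * K) + 2 + K ∧
      l + 1 ≤ gd T (f 0) (f p) := by
  have hb0 : 0 < b := hB 0 (fun _ => f 0) (fun i hi => absurd hi (by omega))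
    (hT.iter_mono (Nat.zero_le A) _)
  have hmono : ∀ i j, i ≤ j → j ≤ n → f i ≤ f j := by
    intro i j hij
    induction j, hij using Nat.le_induction with
    | base => intro _; exact le_rfl
    | succ j _ ih => intro hj; exact (ih (by omega)).trans (f1 j (by omega)).le
  have next : ∀ p, p + b ≤ n → ∃ p', p < p' ∧ p' ≤ p + b ∧ gd T (f p) (f p') = A := by
    intro p hp
    have hge : A ≤ gd T (f p) (f (p + b)) := by
      by_contra hcon
      push_neg at hcon
      have h1 := le_iter_gd hT (hmono p (p + b) (by omega) hp)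
        (hfree p (p + b) (by omega) hp (by omega))
      have h2 := hB b (fun i => f (p + i)) (fun i hi => f1 (p + i) (by omega))
        (h1.trans (hT.iter_mono hcon.le _))
      omega
    classical
    have hex : ∃ a, A ≤ gd T (f p) (f (p + a)) := ⟨b, hge⟩
    have hle : Nat.find hex ≤ b := Nat.find_min' hex hge
    have hsp := Nat.find_spec hex
    have hne : Nat.find hex ≠ 0 := by
      intro e
      rw [e] at hsp
      rw [Nat.add_zero, gd_self hT] at hsp
      omega
    obtain ⟨a, ha⟩ : ∃ a, Nat.find hex = a + 1 := ⟨Nat.find hex - 1, by omega⟩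
    have hmin := Nat.find_min hex (m := a) (by omega)
    rw [ha] at hsp hle
    refine ⟨p + (a + 1), by omega, by omega, ?_⟩
    have h3 := gd_triangle hT (f p) (f (p + a)) (f (p + (a + 1)))
    have h4 : gd T (f (p + a)) (f (p + (a + 1))) ≤ 1 :=
      gd_le_of_le hT (hmono _ _ (by omega) (by omega)) (f2 (p + a) (by omega))
    omega
  induction l with
  | zero =>
    intro hl
    obtain ⟨p', h1, h2, h3⟩ := next 0 (by omega)
    refine ⟨0, p', by omega, by omega, by omega, h3, ?_, by omega⟩
    rw [gd_self hT, h3]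
    have h6 : (0 : ℤ) ≤ h * K := by positivity
    push_cast
    omega
  | succ l ih =>
    intro hl
    have e1 : (l + 1 + 1) * b = (l + 1) * b + b := by ring
    rw [e1] at hl
    obtain ⟨q, p, hqp, hp, hpq, hA1, h2, h3⟩ := ih (by omega)
    obtain ⟨p', h4, h5, h6⟩ := next p (by omega)
    have hth := thin hT hK f q p p' h hqp h4.le (by omega)
      (fun a b' _ hab hb' => hmono a b' hab (by omega))
      (fun a _ ha => f2 a (by omega)) (hfree q p' (by omega) (by omega) (by omega))
    have hls := local_step hT hK (f 0) (f q) (f p) (f p') A (6 * (h * K) + 2)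
      (by push_cast; push_cast at h2; exact h2) hA1 h6 (by push_cast; push_cast at hth; exact hth)
      (by omega)
    refine ⟨p, p', h4.le, by omega, by omega, h6, ?_, by omega⟩
    have := hls.1
    push_cast at this
    exact this

theorem main_lattice (himg : ∀ x y, T x ≤ y → ∃ z, y = T z) {A b h : ℕ}
    (hA : 6 * (h * K) + 2 + K < A) (hb : 2 * b ≤ 2 ^ h)
    (hB : ∀ (m : ℕ) (x : ℕ → P), (∀ i < m, x i < x (i + 1)) → x m ≤ T^[A] (x 0) → m < b)
    (k : ℕ) : ∀ (n : ℕ) (x y : P), SC T n x y → y ≤ T^[k] x → n ≤ 2 * b * (k + 1) := by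
  induction k with
  | zero =>
    intro n x y hc hy
    have h0 : n = 0 := by
      obtain ⟨f, f0, fn, f1, _⟩ := hc.exists_fun
      by_contra hn
      have h1 : f 1 ≤ f n := by
        have : ∀ m, 1 ≤ m → m ≤ n → f 1 ≤ f m := by
          intro m hm
          induction m, hm using Nat.le_induction with
          | base => intro _; exact le_rfl
          | succ m _ ih => intro h; exact (ih (by omega)).trans (f1 m (by omega)).le
        exact this n (by omega) le_rfl
      have h2 := (f1 0 (by omega)).trans_le h1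
      rw [fn, f0] at h2
      exact absurd hy (not_le_of_gt h2)
    rw [h0]
    exact Nat.zero_le _
  | succ k ih =>
    intro n x y hc hy
    obtain ⟨f, f0, fn, f1, f2⟩ := hc.exists_fun
    have hmono : ∀ i j, i ≤ j → j ≤ n → f i ≤ f j := by
      intro i j hij
      induction j, hij using Nat.le_induction with
      | base => intro _; exact le_rfl
      | succ j _ ih => intro hj; exact (ih (by omega)).trans (f1 j (by omega)).le
    by_cases hwin : ∃ i j, i ≤ j ∧ j ≤ n ∧ j - i ≤ 2 * b ∧ T (f i) ≤ f j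
    · obtain ⟨i, j, hij, hjn, hl, hT'⟩ := hwin
      obtain ⟨u, hu⟩ := himg _ _ hT'
      obtain ⟨v, hv, h3⟩ := (SC.of_fun f n f1 f2 j n hjn le_rfl).unshift hT himg u hu
      rw [hu] at hT'
      obtain ⟨n', h2⟩ := SC.of_le hT ((hT.le_iff _ _).1 hT')
      have h1 := SC.of_fun f n f1 f2 0 i (Nat.zero_le _) (hij.trans hjn)
      have h4 := h1.trans (h2.trans h3)
      rw [f0] at h4
      have h5 : v ≤ T^[k] x := by
        rw [← fn, hv, Function.iterate_succ_apply', hT.le_iff] at hy
        exact hy
      have h6 := ih _ _ _ h4 h5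
      have e1 : 2 * b * (k + 1 + 1) = 2 * b * (k + 1) + 2 * b := by ring
      rw [e1]
      omega
    · push_neg at hwin
      have hb0 : 0 < b := hB 0 (fun _ => f 0) (fun i hi => absurd hi (by omega))
        (hT.iter_mono (Nat.zero_le A) _)
      have hnk : n < b * (k + 2) := by
        by_contra hcon
        push_neg at hcon
        obtain ⟨q, p, hqp, hp, -, -, -, h3⟩ := claim_iter hT hK hA hb hB f n f1 f2
          (fun i j hij hj hl => hwin i j hij hj hl) (k + 1) (by rw [Nat.mul_comm]; exact hcon)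
        have hpn : p ≤ n := hp.trans (by rw [Nat.mul_comm]; exact hcon)
        have h4 : gd T (f 0) (f p) ≤ k + 1 := by
          refine gd_le_of_le hT (hmono 0 p (Nat.zero_le _) hpn) ?_
          rw [f0]
          exact (hmono p n hpn le_rfl).trans (fn.le.trans hy)
        omega
      nlinarith

end Pool.Agent.GHyp
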