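import Pool.Agent.Lib_helper84.GarsideMonoid
import Pool.Agent.Lib_helper58.GHyp.HypMain

/-!
# Garside monoids with hyperbolic quotient
-/

set_option autoImplicit false

namespace Pool.Agent.GHyp

open Pool.Agent.Lib_helper84.Garside

/-- A Garside monoid is a lattice with a shift. -/
theorem garside_shift {M : Type} [Monoid M] (d : M) {r : ℕ}
    (hcl : ∀ a b c : M, a * b = a * c → b = c)
    (hcr : ∀ a b c : M, b * a = c * a → b = c)
    (hlen : ∃ len : M → ℕ, (∀ a b : M, len a + len b ≤ len (a * b)) ∧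
      ∀ a : M, len a = 0 → a = 1)
    (hlcm : ∀ a b : M, ∃ m : M, (∃ c, m = a * c) ∧ (∃ c, m = b * c) ∧
      ∀ x : M, (∃ c, x = a * c) → (∃ c, x = b * c) → ∃ c, x = m * c)
    (hgcd : ∀ a b : M, ∃ g : M, (∃ c, a = g * c) ∧ (∃ c, b = g * c) ∧
      ∀ x : M, (∃ c, a = x * c) → (∃ c, b = x * c) → ∃ c, g = x * c)
    (hbal : ∀ x : M, (∃ c, d = x * c) ↔ (∃ c, d = c * x))
    (hgen : Submonoid.closure {x : M | ∃ c, d = x * c} = ⊤)
    (hr : ∀ (n : ℕ) (f : Fin n → M), (∀ i, f i ≠ 1) → (List.ofFn f).prod = d → n ≤ r) :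
    ∃ inst : Lattice M, (∀ x y : M, x ≤ y ↔ ∃ c, y = x * c) ∧
      Shift (fun x : M => x * d) r ∧
      (∀ x y : M, x * d ≤ y → ∃ z, y = z * d) := by
  obtain ⟨len, hlen1, hlen2⟩ := hlen
  have hone : ∀ x y : M, x * y = 1 → x = 1 := by
    intro x y hxy
    have h1 := hlen1 1 1
    rw [mul_one] at h1
    have h2 := hlen1 x y
    rw [hxy] at h2
    exact hlen2 x (by omega)
  choose sup hsup1 hsup2 hsup3 using hlcm
  choose inf hinf1 hinf2 hinf3 using hgcd
  let inst : Lattice M :=
    { le := fun x y => ∃ c, y = x * c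
      le_refl := fun x => ⟨1, (mul_one x).symm⟩
      le_trans := by
        rintro x y z ⟨c, rfl⟩ ⟨c', rfl⟩
        exact ⟨c * c', mul_assoc _ _ _⟩
      le_antisymm := by
        rintro x y ⟨c, hc⟩ ⟨c', hc'⟩
        have h1 : x * (c * c') = x * 1 := by
          rw [← mul_assoc, ← hc, ← hc', mul_one]
        have h2 := hone c c' (hcl _ _ _ h1)
        rw [hc, h2, mul_one]
      sup := sup
      le_sup_left := hsup1
      le_sup_right := hsup2
      sup_le := hsup3
      inf := inf
      inf_le_left := hinf1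
      inf_le_right := hinf2
      le_inf := fun x y z h1 h2 => hinf3 y z x h1 h2 }
  have hle : ∀ x y : M, x ≤ y ↔ ∃ c, y = x * c := fun x y => Iff.rfl
  have hiter : ∀ (t : ℕ) (x : M), (fun x : M => x * d)^[t] x = x * d ^ t := by
    intro t
    induction t with
    | zero => intro x; simp
    | succ t ih =>
      intro x
      rw [Function.iterate_succ_apply', ih, pow_succ, mul_assoc]
  have hmul : ∀ a x y : M, x ≤ y → a * x ≤ a * y := by
    rintro a x y ⟨c, rfl⟩
    exact ⟨c, (mul_assoc _ _ _).symm⟩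
  have hTle : ∀ x y : M, x * d ≤ y * d ↔ x ≤ y := by
    intro x y
    constructor
    · rintro ⟨c, hc⟩
      obtain ⟨c', hc'⟩ := comm_left d hbal hgen c
      refine ⟨c', hcr d _ _ ?_⟩
      rw [hc, mul_assoc, hc', ← mul_assoc]
    · rintro ⟨c, rfl⟩
      obtain ⟨c', hc'⟩ := comm_right d hbal hgen c
      exact ⟨c', by rw [mul_assoc, hc', ← mul_assoc]⟩
  have honele : ∀ x : M, 1 ≤ x := fun x => ⟨x, (one_mul x).symm⟩
  have hT : Shift (fun x : M => x * d) r := by
    refine ⟨hTle, fun x => ⟨d, rfl⟩, ?_, ?_, ?_⟩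
    · intro x y
      apply le_antisymm
      · exact le_inf ((hTle _ _).2 inf_le_left) ((hTle _ _).2 inf_le_right)
      · have h1 : d ≤ (x * d) ⊓ (y * d) := by
          refine le_inf ?_ ?_
          · simpa using (hTle 1 x).2 (honele x)
          · simpa using (hTle 1 y).2 (honele y)
        obtain ⟨e, he⟩ := h1
        obtain ⟨e', he'⟩ := comm_left d hbal hgen e
        rw [he'] at he
        rw [he]
        refine (hTle _ _).2 (le_inf ?_ ?_)
        · rw [← hTle, ← he]; exact inf_le_left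
        · rw [← hTle, ← he]; exact inf_le_right
    · intro s c hc hs
      -- factors
      have hex : ∀ i < s, ∃ g : M, g ≠ 1 ∧ c (i + 1) = c i * g := by
        intro i hi
        obtain ⟨g, hg⟩ := (hc i hi).le
        refine ⟨g, ?_, hg⟩
        rintro rfl
        rw [mul_one] at hg
        exact (hc i hi).ne hg.symm
      choose! g hg1 hg2 using hex
      have hprodg : ∀ l ≤ s, c 0 * (List.ofFn (fun i : Fin l => g i)).prod = c l := by
        intro l
        induction l with
        | zero => intro _; simp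
        | succ l ih =>
          intro hl
          rw [List.ofFn_succ', List.concat_eq_append, List.prod_append, ← mul_assoc]
          simp only [Fin.val_castSucc, Fin.val_last, List.prod_cons, List.prod_nil, mul_one]
          rw [ih (by omega), hg2 l (by omega)]
      obtain ⟨e, he⟩ := hs
      have he' : d = (List.ofFn (fun i : Fin s => g i)).prod * e := by
        apply hcl (c 0)
        rw [← mul_assoc, hprodg s le_rfl, ← he]
      by_cases he1 : e = 1
      · refine hr s (fun i => g i) (fun i => hg1 i i.2) ?_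
        rw [he', he1, mul_one]
      · have := hr (s + 1) (Fin.snoc (fun i : Fin s => g i) e) ?_ ?_
        · omega
        · intro i
          refine Fin.lastCases ?_ (fun i => ?_) i
          · rw [Fin.snoc_last]; exact he1
          · rw [Fin.snoc_castSucc]; exact hg1 i i.2
        · rw [List.ofFn_succ', List.concat_eq_append, List.prod_append]
          simp only [Fin.snoc_castSucc, Fin.snoc_last, List.prod_cons, List.prod_nil, mul_one]
          exact he'.symm
    · intro x y
      have hy : ∃ t : ℕ, y ≤ d ^ t := by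
        have hy : y ∈ Submonoid.closure {x : M | ∃ c, d = x * c} := by rw [hgen]; trivial
        induction hy using Submonoid.closure_induction with
        | mem y hy =>
          obtain ⟨c, hc⟩ := hy
          exact ⟨1, c, by rw [pow_one, hc]⟩
        | one => exact ⟨0, honele _⟩
        | mul y z _ _ ihy ihz =>
          obtain ⟨t1, h1⟩ := ihy
          obtain ⟨t2, h2⟩ := ihz
          refine ⟨t1 + t2, (hmul y _ _ h2).trans ?_⟩
          have : ∀ t : ℕ, y * d ^ t ≤ d ^ t1 * d ^ t := by
            intro t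
            induction t with
            | zero => simpa using h1
            | succ t ih =>
              rw [pow_succ, ← mul_assoc, ← mul_assoc]
              exact (hTle _ _).2 ih
          rw [pow_add]
          exact this t2
      obtain ⟨t, ht⟩ := hy
      refine ⟨t, ht.trans ?_⟩
      rw [hiter]
      clear ht
      induction t with
      | zero => simpa using honele x
      | succ t ih =>
        rw [pow_succ, ← mul_assoc]
        exact (hTle _ _).2 ih
  refine ⟨inst, hle, hT, ?_⟩
  rintro x y ⟨c, hc⟩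
  obtain ⟨c', hc'⟩ := comm_left d hbal hgen c
  exact ⟨x * c', by rw [hc, mul_assoc, hc', ← mul_assoc]⟩

theorem SC.of_chain {P : Type*} [Lattice P] {T : P → P} {r : ℕ} (hT : Shift T r) (x : ℕ → P)
    (n : ℕ) (hx : ∀ i < n, x i < x (i + 1)) : ∃ N, n ≤ N ∧ SC T N (x 0) (x n) := by
  induction n with
  | zero => exact ⟨0, le_rfl, SC.refl _⟩
  | succ n ih =>
    obtain ⟨N, hN, h1⟩ := ih (fun i hi => hx i (by omega))
    obtain ⟨m, h2⟩ := SC.of_le hT (hx n (by omega)).le
    have hm : 1 ≤ m := by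
      rcases Nat.eq_zero_or_pos m with e | e
      · exfalso
        subst e
        have h3 := hx n (by omega)
        obtain ⟨f, f0, fn, -, -⟩ := h2.exists_fun
        rw [← f0, ← fn] at h3
        exact lt_irrefl _ h3
      · exact e
    exact ⟨N + m, by omega, h1.trans h2⟩

theorem exists_two_pow (u v : ℕ) : ∃ a : ℕ, u * a + v < 2 ^ a := by
  set w := max u v + 1 with hw
  refine ⟨3 * w, ?_⟩
  have h1 : w + 1 ≤ 2 ^ w := Nat.lt_two_pow_self
  have h2 : (w + 1) ^ 3 ≤ 2 ^ (3 * w) := by
    rw [Nat.mul_comm 3 w, pow_mul]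
    exact Nat.pow_le_pow_left h1 3
  have h3 : u ≤ w := by omega
  have h4 : v ≤ w := by omega
  have h5 : u * (3 * w) ≤ w * (3 * w) := Nat.mul_le_mul_right _ h3
  have h6 : (w + 1) ^ 3 = w ^ 3 + 3 * w * w + 3 * w + 1 := by ring
  have h7 : 0 ≤ w ^ 3 := Nat.zero_le _
  nlinarith

/-- The linear bound for a Garside monoid with a hyperbolic quotient. -/
theorem garside_hyperbolic {M : Type} [Monoid M] (d : M) {r : ℕ}
    (hcl : ∀ a b c : M, a * b = a * c → b = c)
    (hcr : ∀ a b c : M, b * a = c * a → b = c)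
    (hlen : ∃ len : M → ℕ, (∀ a b : M, len a + len b ≤ len (a * b)) ∧
      ∀ a : M, len a = 0 → a = 1)
    (hlcm : ∀ a b : M, ∃ m : M, (∃ c, m = a * c) ∧ (∃ c, m = b * c) ∧
      ∀ x : M, (∃ c, x = a * c) → (∃ c, x = b * c) → ∃ c, x = m * c)
    (hgcd : ∀ a b : M, ∃ g : M, (∃ c, a = g * c) ∧ (∃ c, b = g * c) ∧
      ∀ x : M, (∃ c, a = x * c) → (∃ c, b = x * c) → ∃ c, g = x * c)
    (hbal : ∀ x : M, (∃ c, d = x * c) ↔ (∃ c, d = c * x))
    (hgen : Submonoid.closure {x : M | ∃ c, d = x * c} = ⊤)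
    (hr : ∀ (n : ℕ) (f : Fin n → M), (∀ i, f i ≠ 1) → (List.ofFn f).prod = d → n ≤ r)
    (dist : M → M → ℕ)
    (hdist : ∀ x y, dist x y = sInf {m : ℕ | ∃ i j : ℕ, (∃ c, y * d ^ j = x * d ^ i * c) ∧
      ∃ c, x * d ^ (i + m) = y * d ^ j * c})
    (K : ℕ) (hK : ∀ x y z w : M, dist x z + dist y w ≤
      max (dist x y + dist z w) (dist y z + dist x w) + K) :
    ∃ C : ℕ, ∀ (k n : ℕ) (f : Fin n → M), (∀ i, f i ≠ 1) → (List.ofFn f).prod = d ^ k →
      n ≤ C * k := by
  obtain ⟨inst, hle, hT, himg⟩ := garside_shift d hcl hcr hlen hlcm hgcd hbal hgen hr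
  have hiter : ∀ (t : ℕ) (x : M), (fun x : M => x * d)^[t] x = x * d ^ t := by
    intro t
    induction t with
    | zero => intro x; simp
    | succ t ih =>
      intro x
      rw [Function.iterate_succ_apply', ih, pow_succ, mul_assoc]
  have hgd : ∀ x y, gd (fun x : M => x * d) x y = dist x y := by
    intro x y
    rw [hdist]
    unfold gd
    simp only [hiter, hle]
  have hFour : Four (fun x : M => x * d) K := by
    intro x y z w
    simp only [hgd]
    exact hK x y z w
  -- numbers
  obtain ⟨C, hC0, hC⟩ := exists_bd r 2 one_lt_two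
  set c₁ := ⌈C⌉₊ with hc₁
  obtain ⟨c, hc⟩ : ∃ c : ℕ, 2 * (c₁ + 1) ≤ 2 ^ c := ⟨2 * (c₁ + 1), Nat.lt_two_pow_self.le⟩
  obtain ⟨a, ha⟩ := exists_two_pow (12 * K) (6 * (c * K) + 2 + K)
  set A := 2 ^ a with hA
  set b := c₁ * A ^ 2 + 1 with hb
  set h := 2 * a + c with hh
  have hA' : 6 * (h * K) + 2 + K < A := by
    have : 6 * (h * K) + 2 + K = 12 * K * a + (6 * (c * K) + 2 + K) := by rw [hh]; ring
    omega
  have hA1 : 1 ≤ A := Nat.one_le_two_pow
  have hb' : 2 * b ≤ 2 ^ h := by
    have h1 : 2 ^ h = A ^ 2 * 2 ^ c := by rw [hh, hA, pow_add, ← pow_mul, Nat.mul_comm a 2]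
    rw [h1]
    have h2 : 1 ≤ A ^ 2 := Nat.one_le_pow _ _ hA1
    calc 2 * b ≤ A ^ 2 * (2 * (c₁ + 1)) := by rw [hb]; nlinarith
      _ ≤ A ^ 2 * 2 ^ c := Nat.mul_le_mul_left _ hc
  have hB : ∀ (m : ℕ) (x : ℕ → M), (∀ i < m, x i < x (i + 1)) →
      x m ≤ (fun x : M => x * d)^[A] (x 0) → m < b := by
    intro m x hx hxm
    have h1 := hT.chain_bound hC hA1 x hx hxm
    have h2 : C ≤ c₁ := Nat.le_ceil C
    have h3 : ((m + 1 : ℕ) : ℝ) ≤ c₁ * (A : ℝ) ^ 2 := by
      refine h1.trans ?_
      rw [show ((2 : ℝ)) = ((2 : ℕ) : ℝ) by norm_num, Real.rpow_natCast]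
      exact mul_le_mul_of_nonneg_right h2 (by positivity)
    have h4 : m + 1 ≤ c₁ * A ^ 2 := by exact_mod_cast h3
    omega
  refine ⟨4 * b, ?_⟩
  intro k n f hf hprod
  set x : ℕ → M := fun i => ((List.ofFn f).take i).prod with hx
  have hxs : ∀ i (hi : i < n), x (i + 1) = x i * f ⟨i, hi⟩ := by
    intro i hi
    change ((List.ofFn f).take (i + 1)).prod = ((List.ofFn f).take i).prod * f ⟨i, hi⟩
    rw [List.take_add_one, List.prod_append]
    congr 1
    rw [List.getElem?_ofFn]
    simp [hi]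
  have hx0 : x 0 = 1 := by
    change ((List.ofFn f).take 0).prod = 1
    simp
  have hxn : x n = d ^ k := by
    change ((List.ofFn f).take n).prod = d ^ k
    rw [List.take_of_length_le (by simp), hprod]
  have hxlt : ∀ i < n, x i < x (i + 1) := by
    intro i hi
    refine lt_of_le_of_ne ((hle _ _).2 ⟨_, hxs i hi⟩) ?_
    intro heq
    apply hf ⟨i, hi⟩
    apply hcl (x i)
    rw [← hxs i hi, mul_one, heq]
  obtain ⟨N, hN, hch⟩ := SC.of_chain hT x n hxlt
  rcases Nat.eq_zero_or_pos k with hk | hk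
  · have hn : n = 0 := by
      by_contra hn
      have h1 : x 1 ≤ x n := by
        have : ∀ m, 1 ≤ m → m ≤ n → x 1 ≤ x m := by
          intro m hm
          induction m, hm using Nat.le_induction with
          | base => intro _; exact le_rfl
          | succ m _ ih => intro h; exact (ih (by omega)).trans (hxlt m (by omega)).le
        exact this n (by omega) le_rfl
      have h2 : x 0 < x 1 := hxlt 0 (by omega)
      have h3 := h2.trans_le h1
      rw [hx0, hxn, hk, pow_zero] at h3
      exact lt_irrefl _ h3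
    rw [hn]
    exact Nat.zero_le _
  · have h1 := main_lattice hT hFour himg hA' hb' hB k N (x 0) (x n) hch
      (by rw [hiter, hxn, hx0, one_mul])
    have h2 : 2 * b * (k + 1) ≤ 4 * b * k := by nlinarith
    omega

end Pool.Agent.GHyp
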